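import Pool.Agent.Q83.FF.Stm

set_option autoImplicit false

open Polynomial Finset Filter Topology
open Pool.Agent.Q83.FF

namespace Pool.Agent.Q298.FF

/-- Double sums over ordered pairs. -/
theorem sum_pairs {d : ℕ} (F : Fin d → Fin d → ℝ) :
    ∑ i, ∑ j ∈ Ioi i, (F i j + F j i) = ∑ i, ∑ j ∈ univ.erase i, F i j := by
  have h := Finset.sum_sum_Ioi_add_eq_sum_sum_off_diag (f := fun i j => F j i)
  have h2 : ∀ i : Fin d, ({i}ᶜ : Finset (Fin d)) = univ.erase i := by
    intro i; ext j; simp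
  simp only [h2] at h
  exact h

/-- The sum of squares of `J` as a sum over pairs. -/
theorem phi_pairs {d : ℕ} (x : Fin d → ℝ) :
    ∑ i, ∑ j ∈ Ioi i, (J x i - J x j) / (x i - x j) = Phi x := by
  have h := sum_pairs (fun i j => J x i * (x i - x j)⁻¹)
  have h1 : ∀ i j : Fin d, J x i * (x i - x j)⁻¹ + J x j * (x j - x i)⁻¹
      = (J x i - J x j) / (x i - x j) := by
    intro i j
    have : (x j - x i)⁻¹ = - (x i - x j)⁻¹ := by
      rw [← neg_sub (x i) (x j), inv_neg]
    rw [this, div_eq_mul_inv]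
    ring
  simp only [h1] at h
  rw [h]
  unfold Phi
  refine sum_congr rfl fun i _ => ?_
  rw [← mul_sum]
  unfold J
  ring

/-- The logarithm of the discriminant as a sum of logarithms. -/
theorem log_dis {d : ℕ} (x : Fin d → ℝ) (hx : Function.Injective x) :
    Real.log (dis x) = ∑ i, ∑ j ∈ Ioi i, 2 * Real.log (x i - x j) := by
  unfold dis
  have hne : ∀ i : Fin d, ∀ j ∈ Ioi i, (x i - x j) ^ 2 ≠ 0 := by
    intro i j hj
    have hij : i ≠ j := ne_of_lt (mem_Ioi.mp hj)
    exact pow_ne_zero _ (sub_ne_zero.mpr fun h => hij (hx h))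
  rw [Real.log_prod (fun i _ => prod_ne_zero_iff.mpr (hne i))]
  refine sum_congr rfl fun i _ => ?_
  rw [Real.log_prod (hne i)]
  refine sum_congr rfl fun j _ => ?_
  rw [Real.log_pow]
  norm_num

/-- Derivative of the logarithm of the discriminant along the flow. -/
theorem t_ent (h_flow : S_flow) : S_ent := by
  intro d a hd ham hainj s hs
  obtain ⟨-, hfl, hder⟩ := h_flow d a hd ham hainj
  have hd' : (0 : ℝ) < (d : ℝ) - 1 := by
    have : (2 : ℝ) ≤ (d : ℝ) := by exact_mod_cast hd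
    linarith
  have h1 : HasDerivWithinAt (fun u => ∑ i, ∑ j ∈ Ioi i, 2 * Real.log (fl a u i - fl a u j))
      (∑ i, ∑ j ∈ Ioi i, 2 * ((J (fl a s) i / ((d : ℝ) - 1) - J (fl a s) j / ((d : ℝ) - 1)) /
        (fl a s i - fl a s j))) (Set.Ici 0) s := by
    refine HasDerivWithinAt.fun_sum fun i _ => HasDerivWithinAt.fun_sum fun j hj => ?_
    have hij : i ≠ j := ne_of_lt (mem_Ioi.mp hj)
    refine HasDerivWithinAt.const_mul 2 ?_
    refine HasDerivWithinAt.log ((hder s hs i).sub (hder s hs j)) ?_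
    exact sub_ne_zero.mpr fun h => hij ((hfl s hs).2.1 h)
  have h2 : ∑ i, ∑ j ∈ Ioi i, 2 * ((J (fl a s) i / ((d : ℝ) - 1) - J (fl a s) j / ((d : ℝ) - 1)) /
        (fl a s i - fl a s j)) = 2 * Phi (fl a s) / ((d : ℝ) - 1) := by
    rw [← phi_pairs, mul_sum, sum_div]
    refine sum_congr rfl fun i _ => ?_
    rw [mul_sum, sum_div]
    refine sum_congr rfl fun j _ => ?_
    ring
  rw [h2] at h1
  refine h1.congr (fun u hu => ?_) ?_
  · exact log_dis _ (hfl u hu).2.1
  · exact log_dis _ (hfl s hs).2.1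

end Pool.Agent.Q298.FF
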