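import Pool.Agent.Q83.FF.Stm

set_option autoImplicit false

open Polynomial Finset Filter Topology
open Pool.Agent.Q83.FF

namespace Pool.Agent.Q298.FF

theorem smul_inj {d : ℕ} {a : Fin d → ℝ} {t : ℝ} (ht : t ≠ 0) (ha : Function.Injective a) :
    Function.Injective (t • a) := by
  intro i j hij
  simp only [Pi.smul_apply, smul_eq_mul] at hij
  exact ha (mul_left_cancel₀ ht hij)

theorem smul_mono {d : ℕ} {a : Fin d → ℝ} {t : ℝ} (ht : 0 ≤ t) (ha : Monotone a) :
    Monotone (t • a) := by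
  intro i j hij
  simp only [Pi.smul_apply, smul_eq_mul]
  exact mul_le_mul_of_nonneg_left (ha hij) ht

/-- The three flows are compatible. -/
theorem t_rflow (h_flow : S_flow) (h_heatconv : S_heatconv) (h_heatscale : S_heatscale)
    (h_simple : S_simple) (h_uniq : S_uniq) : S_rflow := by
  intro d a b c l hd hl0 hl1 ham hbm hcm hai hbi hP
  have hs1 : Real.sqrt l ≠ 0 := (Real.sqrt_pos.mpr hl0).ne'
  have hs2 : Real.sqrt (1 - l) ≠ 0 := (Real.sqrt_pos.mpr (by linarith)).ne'
  have hci : Function.Injective c :=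
    h_simple d (Real.sqrt l • a) (Real.sqrt (1 - l) • b) c (smul_inj hs1 hai) hP
  refine ⟨hci, fun s hs => ?_⟩
  have hdeg := h_uniq.2.2.1
  rw [((h_flow d c hd hcm hci).2.1 s hs).2.2, hP]
  have e1 := h_heatscale d a (fl a s) s (Real.sqrt l) ((h_flow d a hd ham hai).2.1 s hs).2.2
  have e2 := h_heatscale d b (fl b s) s (Real.sqrt (1 - l)) ((h_flow d b hd hbm hbi).2.1 s hs).2.2
  rw [Real.sq_sqrt hl0.le] at e1
  rw [Real.sq_sqrt (by linarith)] at e2
  rw [e1, e2, h_heatconv d (l * s) ((1 - l) * s) _ _ (hdeg d _).2.le (hdeg d _).2.le]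
  congr 1
  ring

end Pool.Agent.Q298.FF
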