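import Pool.Agent.Q83.FF.Stm
import Pool.Agent.Q298.FF.Ent
import Pool.Agent.Q298.FF.RFlow

set_option autoImplicit false

open Polynomial Finset Filter Topology
open Pool.Agent.Q83.FF

namespace Pool.Agent.Q298.FF

theorem pairs_const (d : ℕ) (c : ℝ) :
    ∑ i : Fin d, ∑ _j ∈ Ioi i, c = (d : ℝ) * ((d : ℝ) - 1) / 2 * c := by
  have h := sum_pairs (d := d) (fun _ _ => c / 2)
  simp only [add_halves] at h
  rw [h]
  simp only [sum_const, nsmul_eq_mul]
  have h2 : ∀ i : Fin d, ((#(univ.erase i) : ℕ) : ℝ) = (d : ℝ) - 1 := by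
    intro i
    rw [card_erase_of_mem (mem_univ i), card_univ, Fintype.card_fin]
    have : 1 ≤ d := by
      have := i.2
      omega
    rw [Nat.cast_sub this]
    simp
  rw [sum_congr rfl fun i _ => by rw [h2 i]]
  simp only [sum_const, nsmul_eq_mul, card_univ, Fintype.card_fin]
  ring

/-- The logarithm of the discriminant of a scaled vector. -/
theorem log_dis_smul {d : ℕ} (x : Fin d → ℝ) (hx : Function.Injective x) (t : ℝ) (ht : 0 < t) :
    Real.log (dis (t • x)) = (d : ℝ) * ((d : ℝ) - 1) * Real.log t + Real.log (dis x) := by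
  rw [log_dis _ (smul_inj ht.ne' hx), log_dis _ hx]
  have h1 : ∀ i : Fin d, ∀ j ∈ Ioi i, 2 * Real.log ((t • x) i - (t • x) j)
      = 2 * Real.log t + 2 * Real.log (x i - x j) := by
    intro i j hj
    have hij : i ≠ j := ne_of_lt (mem_Ioi.mp hj)
    have hne : x i - x j ≠ 0 := sub_ne_zero.mpr fun h => hij (hx h)
    simp only [Pi.smul_apply, smul_eq_mul]
    rw [← mul_sub, Real.log_mul ht.ne' hne]
    ring
  rw [sum_congr rfl fun i _ => sum_congr rfl (h1 i)]
  simp only [sum_add_distrib]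
  rw [pairs_const]
  ring

/-- Asymptotics of the deficit of the logarithm of the discriminant. -/
theorem t_deficit (h_ypoly : S_ypoly) (h_yasym : S_yasym) (h_taylor : S_taylor)
    (h_heatsum : S_heatsum) (h_flow : S_flow) (h_heatalg : S_heatalg) (h_uniq : S_uniq) :
    S_deficit := by
  intro d m h a v hd hm hmd hh hP hJ hsq ham hai hsum hv hq
  have hdR : (2 : ℝ) ≤ (d : ℝ) := by exact_mod_cast hd
  have hd0 : (0 : ℝ) < (d : ℝ) := by linarith
  have hsa : ∑ i, a i ^ 2 = d * v := by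
    rw [hv]; field_simp
  have hv0 : 0 ≤ v := by
    rw [hv]; positivity
  obtain ⟨-, hfl, -⟩ := h_flow d a hd ham hai
  set y : ℝ → Fin d → ℝ := fun th => th • fl a (1 / th ^ 2 - v) with hy
  set q : ℕ → ℝ := fun k => (heat d (-v) (P a)).coeff (d - k) with hqdef
  have hpos : ∀ᶠ th : ℝ in 𝓝[>] 0, 0 < th := self_mem_nhdsWithin
  have hsm : ∀ᶠ th : ℝ in 𝓝[>] 0, v * th ^ 2 < 1 := by
    have h1 : Tendsto (fun th : ℝ => v * th ^ 2) (𝓝 0) (𝓝 (v * 0 ^ 2)) :=
      ((continuous_const.mul (continuous_pow 2)).tendsto 0)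
    have h2 : ∀ᶠ th : ℝ in 𝓝 0, v * th ^ 2 < 1 := h1.eventually_lt_const (by norm_num)
    exact nhdsWithin_le_nhds h2
  have hgood : ∀ᶠ th : ℝ in 𝓝[>] 0, 0 < th ∧ 0 ≤ 1 / th ^ 2 - v := by
    filter_upwards [hpos, hsm] with th h1 h2
    refine ⟨h1, ?_⟩
    rw [sub_nonneg, le_div_iff₀ (by positivity)]
    exact h2.le
  have hq0 : q 0 = 1 := by
    have hPa := h_uniq.2.2.1 d a
    have h7 := h_heatalg.2.2.2.2.2.2 d (-v) (P a) hPa.1 hPa.2
    show (heat d (-v) (P a)).coeff (d - 0) = 1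
    rw [Nat.sub_zero]
    have h8 := h7.1.coeff_natDegree
    rw [h7.2] at h8
    exact h8
  have hya : ∀ i, Tendsto (fun th : ℝ => (y th i - h i) / th ^ m) (𝓝[>] 0)
      (𝓝 (q m * dl d h m i)) := by
    refine h_yasym d m h q y hm hmd hh hP hq0 hq ?_
    filter_upwards [hgood] with th hth
    exact ⟨smul_mono hth.1.le (hfl _ hth.2).1, h_ypoly d a v th hd ham hai hth.1 hth.2⟩
  have hnorm : ∀ᶠ th : ℝ in 𝓝[>] 0, ∑ i, (y th i) ^ 2 = ∑ i, h i ^ 2 := by
    filter_upwards [hgood] with th hth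
    have h1 := (h_heatsum d a (fl a (1 / th ^ 2 - v)) (1 / th ^ 2 - v) hd (hfl _ hth.2).2.2).2
    have h2 : ∑ i, (y th i) ^ 2 = th ^ 2 * ∑ i, fl a (1 / th ^ 2 - v) i ^ 2 := by
      rw [mul_sum]
      refine sum_congr rfl fun i _ => ?_
      simp only [hy, Pi.smul_apply, smul_eq_mul]
      ring
    rw [h2, h1, hsa, hsq]
    have := hth.1.ne'
    field_simp
    ring
  have hT := h_taylor d m h y (fun i => q m * dl d h m i) hm hh.injective hJ hya hnorm
  have hK : ((d : ℝ) - 1) / 2 * ∑ i, (q m * dl d h m i) ^ 2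
        + ∑ i, ∑ j ∈ Ioi i, (q m * dl d h m i - q m * dl d h m j) ^ 2 / (h i - h j) ^ 2
      = (heat d (-v) (P a)).coeff (d - m) ^ 2 * Kc d h m := by
    unfold Kc
    rw [mul_add]
    congr 1
    · simp only [mul_pow]
      rw [← mul_sum]
      ring
    · rw [mul_sum]
      refine sum_congr rfl fun i _ => ?_
      rw [mul_sum]
      refine sum_congr rfl fun j _ => ?_
      rw [← mul_sub, mul_pow, mul_div_assoc]
  rw [hK] at hT
  -- change of variables
  have hth : Tendsto (fun s : ℝ => (Real.sqrt (v + s))⁻¹) atTop (𝓝[>] 0) := by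
    refine tendsto_inv_atTop_nhdsGT_zero.comp ?_
    exact Real.tendsto_sqrt_atTop.comp (tendsto_atTop_add_const_left _ _ tendsto_id)
  refine (hT.comp hth).congr' ?_
  filter_upwards [eventually_gt_atTop (0 : ℝ)] with s hs
  have hvs : 0 < v + s := by linarith
  have hsq2 : 0 < Real.sqrt (v + s) := Real.sqrt_pos.mpr hvs
  have e1 : (1 : ℝ) / ((Real.sqrt (v + s))⁻¹) ^ 2 - v = s := by
    rw [inv_pow, Real.sq_sqrt hvs.le, one_div, inv_inv]
    ring
  have e2 : y ((Real.sqrt (v + s))⁻¹) = (Real.sqrt (v + s))⁻¹ • fl a s := by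
    simp only [hy]
    rw [e1]
  show (Real.log (dis h) - Real.log (dis (y ((Real.sqrt (v + s))⁻¹))))
    / ((Real.sqrt (v + s))⁻¹) ^ (2 * m) = _
  rw [e2, log_dis_smul _ (hfl s hs.le).2.1 _ (inv_pos.mpr hsq2), Real.log_inv, Real.log_sqrt hvs.le,
    pow_mul, inv_pow, Real.sq_sqrt hvs.le, inv_pow, div_inv_eq_mul]
  ring

end Pool.Agent.Q298.FF
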