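import Pool.Agent.Q83.FF.Stm
import Pool.Agent.Q298.FF.RFlow

set_option autoImplicit false

open Polynomial Finset Filter Topology
open Pool.Agent.Q83.FF

namespace Pool.Agent.Q298.FF

theorem phi_smul {d : ℕ} (x : Fin d → ℝ) (t : ℝ) : Phi (t • x) = (t ^ 2)⁻¹ * Phi x := by
  have hJ : ∀ i, J (t • x) i = t⁻¹ * J x i := by
    intro i
    unfold J
    rw [mul_sum]
    refine sum_congr rfl fun j _ => ?_
    simp only [Pi.smul_apply, smul_eq_mul]
    rw [← mul_sub, mul_inv]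
  unfold Phi
  rw [mul_sum]
  refine sum_congr rfl fun i _ => ?_
  rw [hJ, mul_pow, inv_pow]

/-- Monotonicity of the entropy deficit along the flow. -/
theorem t_ganti (h_ent : S_ent) (h_rflow : S_rflow) (h_stam : S_stam) (h_flow : S_flow) :
    S_ganti := by
  intro d a b c l hd hl0 hl1 ham hbm hcm hai hbi hP
  obtain ⟨hci, hfl⟩ := h_rflow d a b c l hd hl0 hl1 ham hbm hcm hai hbi hP
  have hd' : (0 : ℝ) < (d : ℝ) - 1 := by
    have : (2 : ℝ) ≤ (d : ℝ) := by exact_mod_cast hd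
    linarith
  have hder : ∀ s : ℝ, 0 ≤ s → HasDerivWithinAt
      (fun s => Real.log (dis (fl c s)) - l * Real.log (dis (fl a s))
        - (1 - l) * Real.log (dis (fl b s)))
      (2 * Phi (fl c s) / ((d : ℝ) - 1) - l * (2 * Phi (fl a s) / ((d : ℝ) - 1))
        - (1 - l) * (2 * Phi (fl b s) / ((d : ℝ) - 1))) (Set.Ici 0) s := by
    intro s hs
    exact (((h_ent d c hd hcm hci s hs)).sub ((h_ent d a hd ham hai s hs).const_mul l)).sub
      ((h_ent d b hd hbm hbi s hs).const_mul (1 - l))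
  refine antitoneOn_of_hasDerivWithinAt_nonpos (convex_Ici 0)
    (f' := fun s => 2 * Phi (fl c s) / ((d : ℝ) - 1) - l * (2 * Phi (fl a s) / ((d : ℝ) - 1))
        - (1 - l) * (2 * Phi (fl b s) / ((d : ℝ) - 1)))
    (fun s hs => (hder s hs).continuousWithinAt) ?_ ?_
  · intro s hs
    rw [interior_Ici] at hs ⊢
    exact (hder s (le_of_lt hs)).mono Set.Ioi_subset_Ici_self
  · intro s hs
    rw [interior_Ici] at hs
    have hs0 : 0 ≤ s := le_of_lt hs
    have fa := (h_flow d a hd ham hai).2.1 s hs0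
    have fb := (h_flow d b hd hbm hbi).2.1 s hs0
    have fc := (h_flow d c hd hcm hci).2.1 s hs0
    have h1l : 0 < 1 - l := by linarith
    have hs1 : 0 < Real.sqrt l := Real.sqrt_pos.mpr hl0
    have hs2 : 0 < Real.sqrt (1 - l) := Real.sqrt_pos.mpr h1l
    have hst := h_stam d (Real.sqrt l • fl a s) (Real.sqrt (1 - l) • fl b s) (fl c s) l (1 - l) hd
      (smul_mono hs1.le fa.1) (smul_mono hs2.le fb.1) fc.1 (smul_inj hs1.ne' fa.2.1)
      (smul_inj hs2.ne' fb.2.1) (hfl s hs0) hl0.le h1l.le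
    rw [phi_smul, phi_smul, Real.sq_sqrt hl0.le, Real.sq_sqrt h1l.le] at hst
    have e1 : l ^ 2 * (l⁻¹ * Phi (fl a s)) = l * Phi (fl a s) := by
      field_simp
    have e2 : (1 - l) ^ 2 * ((1 - l)⁻¹ * Phi (fl b s)) = (1 - l) * Phi (fl b s) := by
      field_simp
    have e3 : (l + (1 - l)) ^ 2 * Phi (fl c s) = Phi (fl c s) := by ring
    rw [e1, e2, e3] at hst
    have e4 : 2 * Phi (fl c s) / ((d : ℝ) - 1) - l * (2 * Phi (fl a s) / ((d : ℝ) - 1))
        - (1 - l) * (2 * Phi (fl b s) / ((d : ℝ) - 1))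
        = 2 * (Phi (fl c s) - (l * Phi (fl a s) + (1 - l) * Phi (fl b s))) / ((d : ℝ) - 1) := by
      ring
    show _ ≤ (0 : ℝ)
    rw [e4]
    apply div_nonpos_of_nonpos_of_nonneg _ hd'.le
    linarith

end Pool.Agent.Q298.FF
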