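import Pool.Agent.Q83.FF.Stm

set_option autoImplicit false

open Polynomial Finset Filter Topology
open Pool.Agent.Q83.FF

namespace Pool.Agent.Q298.FF

theorem iter_X_mul (n : ℕ) (q : ℝ[X]) :
    derivative^[n + 1] (X * q) = X * derivative^[n + 1] q + C ((n : ℝ) + 1) * derivative^[n] q := by
  induction n with
  | zero =>
    simp [derivative_mul]
    ring
  | succ n ih =>
    rw [Function.iterate_succ_apply', ih]
    rw [derivative_add, derivative_mul, derivative_X, derivative_C_mul,
      ← Function.iterate_succ_apply' (derivative (R := ℝ)) (n + 1) q,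
      ← Function.iterate_succ_apply' (derivative (R := ℝ)) n q]
    push_cast
    simp only [map_add, map_one]
    ring

/-- The operator `∑_(k ≤ N) (-e)^k/k! D^(2k)`. -/
noncomputable def TT (e : ℝ) (N : ℕ) (q : ℝ[X]) : ℝ[X] :=
  ∑ k ∈ range (N + 1), C ((-e) ^ k / (Nat.factorial k : ℝ)) * derivative^[2 * k] q

theorem TT_succ (e : ℝ) (N : ℕ) (q : ℝ[X]) :
    TT e (N + 1) q = TT e N q
      + C ((-e) ^ (N + 1) / (Nat.factorial (N + 1) : ℝ)) * derivative^[2 * (N + 1)] q := by
  unfold TT
  rw [sum_range_succ]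

theorem TT_X_mul (e : ℝ) (N : ℕ) (q : ℝ[X]) :
    TT e (N + 1) (X * q) = X * TT e (N + 1) q - C (2 * e) * derivative (TT e N q) := by
  induction N with
  | zero =>
    rw [TT_succ, TT_succ]
    have h0 : ∀ q : ℝ[X], TT e 0 q = q := by
      intro q; simp [TT]
    rw [h0, h0]
    have := iter_X_mul 1 q
    simp only [Nat.cast_one] at this
    rw [show 2 * (0 + 1) = 1 + 1 from rfl, this]
    simp only [Function.iterate_one, zero_add, pow_one, Nat.factorial_one, Nat.cast_one, div_one,
      map_add, map_mul, map_one, map_neg]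
    have h2 : (C (2 : ℝ)) = (1 + 1 : ℝ[X]) := by
      rw [← one_add_one_eq_two, C_add, C_1]
    rw [h2]
    ring
  | succ N ih =>
    rw [TT_succ e (N + 1) (X * q), ih, TT_succ e (N + 1) q, TT_succ e N q]
    have h1 := iter_X_mul (2 * (N + 1) + 1) q
    rw [show 2 * (N + 1) + 1 + 1 = 2 * (N + 1 + 1) by ring] at h1
    rw [h1]
    have h3 : derivative (TT e N q + C ((-e) ^ (N + 1) / (Nat.factorial (N + 1) : ℝ))
          * derivative^[2 * (N + 1)] q)
        = derivative (TT e N q) + C ((-e) ^ (N + 1) / (Nat.factorial (N + 1) : ℝ))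
          * derivative^[2 * (N + 1) + 1] q := by
      rw [derivative_add, derivative_C_mul, Function.iterate_succ_apply']
    rw [h3]
    have h4 : C ((-e) ^ (N + 1 + 1) / (Nat.factorial (N + 1 + 1) : ℝ))
          * C (((2 * (N + 1) + 1 : ℕ) : ℝ) + 1)
        = - (C (2 * e) * C ((-e) ^ (N + 1) / (Nat.factorial (N + 1) : ℝ))) := by
      rw [← C_mul, ← C_mul, ← C_neg]
      congr 1
      rw [Nat.factorial_succ (N + 1)]
      push_cast
      have hN : ((N : ℝ) + 1 + 1) ≠ 0 := by positivity
      have hF : ((Nat.factorial (N + 1) : ℕ) : ℝ) ≠ 0 := by positivity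
      field_simp
      ring
    have h5 : C ((-e) ^ (N + 1 + 1) / (Nat.factorial (N + 1 + 1) : ℝ))
          * (X * derivative^[2 * (N + 1 + 1)] q
            + C (((2 * (N + 1) + 1 : ℕ) : ℝ) + 1) * derivative^[2 * (N + 1) + 1] q)
        = X * (C ((-e) ^ (N + 1 + 1) / (Nat.factorial (N + 1 + 1) : ℝ))
            * derivative^[2 * (N + 1 + 1)] q)
          - C (2 * e) * C ((-e) ^ (N + 1) / (Nat.factorial (N + 1) : ℝ))
            * derivative^[2 * (N + 1) + 1] q := by
      rw [mul_add, ← mul_assoc (C _) (C _), h4]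
      ring
    rw [h5]
    ring

theorem heat_eq_TT (d : ℕ) (s : ℝ) (p : ℝ[X]) :
    heat d s p = TT (s / (2 * ((d : ℝ) - 1))) d p := rfl

theorem TT_deriv (e : ℝ) (N : ℕ) (q : ℝ[X]) : derivative (TT e N q) = TT e N (derivative q) := by
  unfold TT
  rw [derivative_sum]
  refine sum_congr rfl fun k _ => ?_
  rw [derivative_C_mul]
  congr 1
  exact (Function.iterate_succ_apply' (derivative (R := ℝ)) (2 * k) q).symm.trans
    (Function.iterate_succ_apply (derivative (R := ℝ)) (2 * k) q)

theorem TT_C_mul (e c : ℝ) (N : ℕ) (q : ℝ[X]) : TT e N (C c * q) = C c * TT e N q := by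
  unfold TT
  rw [mul_sum]
  refine sum_congr rfl fun k _ => ?_
  rw [iterate_derivative_C_mul]
  ring

theorem TT_high (e : ℝ) (N : ℕ) : TT e (N + 1) (X ^ N) = TT e N (X ^ N) := by
  rw [TT_succ]
  have h : derivative^[2 * (N + 1)] (X ^ N : ℝ[X]) = 0 := by
    apply iterate_derivative_eq_zero
    rw [natDegree_X_pow]
    omega
  rw [h, mul_zero, add_zero]

/-- The differential equation of the Hermite polynomial. -/
theorem herm_ode (d : ℕ) (hd : 2 ≤ d) :
    derivative (derivative (heat d 1 (X ^ d)))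
      = C ((d : ℝ) - 1) * (X * derivative (heat d 1 (X ^ d)) - C (d : ℝ) * heat d 1 (X ^ d)) := by
  obtain ⟨N, rfl⟩ : ∃ N, d = N + 1 := ⟨d - 1, by omega⟩
  have hN : (1 : ℝ) ≤ (N : ℝ) := by
    have : 1 ≤ N := by omega
    exact_mod_cast this
  rw [heat_eq_TT]
  set e : ℝ := 1 / (2 * (((N + 1 : ℕ) : ℝ) - 1)) with he
  have he2 : (N : ℝ) * (2 * e) = 1 := by
    rw [he]
    push_cast
    rw [add_sub_cancel_right]
    have : (N : ℝ) ≠ 0 := by positivity
    field_simp
  set G := TT e (N + 1) (X ^ N) with hG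
  have h1 : TT e (N + 1) (X ^ (N + 1)) = X * G - C (2 * e) * derivative G := by
    rw [pow_succ', TT_X_mul, hG, TT_high]
  have h2 : derivative (TT e (N + 1) (X ^ (N + 1))) = C ((N : ℝ) + 1) * G := by
    rw [TT_deriv, derivative_X_pow, Nat.add_sub_cancel, TT_C_mul]
    push_cast
    rfl
  rw [h2, derivative_C_mul, h1]
  push_cast
  have h3 : (C ((N : ℝ) + 1 - 1) : ℝ[X]) * C (2 * e) = 1 := by
    rw [← C_mul, add_sub_cancel_right, he2, C_1]
  have : C ((N : ℝ) + 1 - 1) * (X * (C ((N : ℝ) + 1) * G)
      - C ((N : ℝ) + 1) * (X * G - C (2 * e) * derivative G))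
      = (C ((N : ℝ) + 1 - 1) * C (2 * e)) * (C ((N : ℝ) + 1) * derivative G) := by
    ring
  rw [this, h3, one_mul]

theorem iter_succ' (n : ℕ) (p : ℝ[X]) : derivative^[n + 1] p = derivative (derivative^[n] p) :=
  Function.iterate_succ_apply' _ _ _

/-- Higher derivatives of a polynomial that satisfies the Hermite equation. -/
theorem ode_iter (a b : ℝ) (H : ℝ[X])
    (h : derivative (derivative H) = C a * (X * derivative H - C b * H)) (n : ℕ) :
    derivative^[n + 2] H = C a * (X * derivative^[n + 1] H + C ((n : ℝ) - b) * derivative^[n] H) := by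
  induction n with
  | zero =>
    show derivative (derivative H) = C a * (X * derivative H + C (((0 : ℕ) : ℝ) - b) * H)
    rw [h]
    simp only [Nat.cast_zero, zero_sub, C_neg]
    ring
  | succ n ih =>
    have h1 := congrArg derivative ih
    rw [← iter_succ', derivative_C_mul, derivative_add,
      derivative_mul, derivative_X, derivative_C_mul, ← iter_succ', ← iter_succ'] at h1
    refine h1.trans ?_
    push_cast
    simp only [C_sub, C_add, C_1]
    ring

theorem ode_vanish (a b : ℝ) (H : ℝ[X])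
    (h : derivative (derivative H) = C a * (X * derivative H - C b * H)) (x : ℝ)
    (h0 : H.eval x = 0) (h1 : (derivative H).eval x = 0) (n : ℕ) :
    (derivative^[n] H).eval x = 0 ∧ (derivative^[n + 1] H).eval x = 0 := by
  induction n with
  | zero => exact ⟨h0, h1⟩
  | succ n ih =>
    refine ⟨ih.2, ?_⟩
    rw [ode_iter a b H h n, eval_mul, eval_add, eval_mul, eval_mul, ih.1, ih.2]
    simp

theorem iter_top (d : ℕ) (H : ℝ[X]) (hm : H.Monic) (hd : H.natDegree = d) (x : ℝ) :
    (derivative^[d] H).eval x ≠ 0 := by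
  have h1 : (derivative^[d] H).natDegree ≤ 0 := by
    have := natDegree_iterate_derivative H d
    omega
  rw [eq_C_of_natDegree_le_zero h1, eval_C, coeff_iterate_derivative, zero_add]
  have h2 : H.coeff d = 1 := by
    rw [← hd]; exact hm
  rw [h2]
  simp [Nat.descFactorial_self, Nat.factorial_ne_zero]

/-- Derivatives of `P h` at a root. -/
theorem P_split {d : ℕ} (h : Fin d → ℝ) (i : Fin d) :
    P h = (X - C (h i)) * ∏ j ∈ univ.erase i, (X - C (h j)) := by
  unfold P
  rw [mul_prod_erase univ (fun j => X - C (h j)) (mem_univ i)]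

theorem P_deriv1 {d : ℕ} (h : Fin d → ℝ) (i : Fin d) :
    (derivative (P h)).eval (h i) = ∏ j ∈ univ.erase i, (h i - h j) := by
  rw [P_split h i, derivative_mul]
  simp [eval_prod]

theorem P_deriv2 {d : ℕ} (h : Fin d → ℝ) (i : Fin d) (hi : Function.Injective h) :
    (derivative (derivative (P h))).eval (h i)
      = 2 * (∏ j ∈ univ.erase i, (h i - h j)) * J h i := by
  rw [P_split h i, derivative_mul, derivative_add, derivative_mul, derivative_mul]
  simp only [derivative_sub, derivative_X, derivative_C, sub_zero, derivative_one, zero_mul,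
    zero_add, one_mul, eval_add, eval_mul, eval_sub, eval_X, eval_C, sub_self, add_zero]
  rw [derivative_prod_finset, eval_finsetSum]
  have h1 : ∀ j ∈ univ.erase i, ((∏ b ∈ (univ.erase i).erase j, (X - C (h b)))
      * derivative (X - C (h j))).eval (h i)
      = (∏ b ∈ univ.erase i, (h i - h b)) * (h i - h j)⁻¹ := by
    intro j hj
    have hne : h i - h j ≠ 0 := sub_ne_zero.mpr fun hh => (mem_erase.mp hj).1 (hi hh).symm
    rw [← mul_prod_erase (univ.erase i) (fun b => h i - h b) hj]
    simp only [derivative_sub, derivative_X, derivative_C, sub_zero, mul_one, eval_prod, eval_sub,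
      eval_X, eval_C]
    field_simp
  rw [sum_congr rfl h1, ← mul_sum]
  unfold J
  ring

theorem P_zero (d : ℕ) : P (fun _ : Fin d => (0 : ℝ)) = X ^ d := by
  unfold P
  simp

/-- The roots of the Hermite polynomial. -/
theorem t_herm (h_heatrr : S_heatrr) (h_heatsum : S_heatsum) (h_uniq : S_uniq) : S_herm := by
  intro d hd
  obtain ⟨h, hmono, hP⟩ := h_heatrr d (fun _ => 0) 1 hd zero_le_one
  have hd' : (0 : ℝ) < (d : ℝ) - 1 := by
    have : (2 : ℝ) ≤ (d : ℝ) := by exact_mod_cast hd
    linarith
  have hsum := h_heatsum d (fun _ => 0) h 1 hd hP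
  rw [P_zero] at hP
  have hode := herm_ode d hd
  rw [← hP] at hode
  obtain ⟨hmon, hdeg⟩ := h_uniq.2.2.1 d h
  have hinj : Function.Injective h := by
    intro i j hij
    by_contra hne
    have h0 : (P h).eval (h i) = 0 := by
      rw [P_split h i]; simp
    have h1 : (derivative (P h)).eval (h i) = 0 := by
      rw [P_deriv1]
      exact prod_eq_zero (mem_erase.mpr ⟨Ne.symm hne, mem_univ j⟩) (by rw [hij, sub_self])
    exact iter_top d (P h) hmon hdeg (h i) (ode_vanish _ _ _ hode (h i) h0 h1 d).1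
  refine ⟨h, hmono.strictMono_of_injective hinj, hP, ?_, ?_, ?_⟩
  · intro i
    have h0 : (P h).eval (h i) = 0 := by
      rw [P_split h i]; simp
    have h2 := congrArg (Polynomial.eval (h i)) hode
    rw [P_deriv2 h i hinj, eval_mul, eval_sub, eval_mul, eval_mul, P_deriv1, h0] at h2
    simp only [eval_C, eval_X, mul_zero, sub_zero] at h2
    have hR : ∏ j ∈ univ.erase i, (h i - h j) ≠ 0 := by
      rw [prod_ne_zero_iff]
      intro j hj
      exact sub_ne_zero.mpr fun hh => (mem_erase.mp hj).1 (hinj hh).symm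
    have h3 : (∏ j ∈ univ.erase i, (h i - h j)) * (2 * J h i)
        = (∏ j ∈ univ.erase i, (h i - h j)) * (((d : ℝ) - 1) * h i) := by
      linarith
    have h4 := mul_left_cancel₀ hR h3
    linarith
  · rw [hsum.1]; simp
  · rw [hsum.2]; simp

end Pool.Agent.Q298.FF
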