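import Pool.Agent.Q83.FF.Stm

set_option autoImplicit false

open Polynomial Finset Filter Topology
open Pool.Agent.Q83.FF

namespace Pool.Agent.Q298.FF

/-- Positivity of the constant of the second order term. -/
theorem t_kpos (h_heatalg : S_heatalg) : S_kpos := by
  intro d m h hd hm hmd hinj
  obtain ⟨hadd, h0, _, _, hC, hdeg, _⟩ := h_heatalg
  have hpne : heat d 1 (X ^ (d - m)) ≠ 0 := by
    intro h00
    have h1 := hadd d (-1) 1 (X ^ (d - m)) (by simp)
    rw [h00] at h1
    have h2 := hC d (-1) 0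
    simp only [map_zero] at h2
    rw [h2, neg_add_cancel, h0] at h1
    exact pow_ne_zero _ X_ne_zero h1.symm
  have hpdeg : (heat d 1 (X ^ (d - m))).natDegree < d := by
    have := hdeg d 1 (X ^ (d - m))
    rw [natDegree_X_pow] at this
    omega
  have hex : ∃ i, (heat d 1 (X ^ (d - m))).eval (h i) ≠ 0 := by
    by_contra hcon
    push Not at hcon
    exact hpne (eq_zero_of_natDegree_lt_card_of_eval_eq_zero _ hinj hcon
      (by rw [Fintype.card_fin]; exact hpdeg))
  obtain ⟨i, hi⟩ := hex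
  have hprod : ∏ j ∈ univ.erase i, (h i - h j) ≠ 0 := by
    rw [prod_ne_zero_iff]
    intro j hj
    rw [sub_ne_zero]
    intro hij
    exact (mem_erase.mp hj).1 (hinj hij).symm
  have hdl : dl d h m i ≠ 0 := by
    unfold dl
    exact div_ne_zero (neg_ne_zero.mpr hi) hprod
  have hsum : 0 < ∑ i, dl d h m i ^ 2 := by
    refine sum_pos' (fun j _ => sq_nonneg _) ⟨i, mem_univ _, ?_⟩
    positivity
  have hd' : (0 : ℝ) < ((d : ℝ) - 1) / 2 := by
    have : (2 : ℝ) ≤ (d : ℝ) := by exact_mod_cast hd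
    linarith
  unfold Kc
  have h2 : 0 ≤ ∑ i, ∑ j ∈ Ioi i, (dl d h m i - dl d h m j) ^ 2 / (h i - h j) ^ 2 := by
    refine sum_nonneg fun i _ => sum_nonneg fun j _ => ?_
    positivity
  have h3 := mul_pos hd' hsum
  linarith

end Pool.Agent.Q298.FF
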