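import Pool.Agent.Q83.FF.Stm

set_option autoImplicit false

open Polynomial Finset Filter Topology
open Pool.Agent.Q83.FF

namespace Pool.Agent.Q298.FF

theorem P_eval {d : ℕ} (a : Fin d → ℝ) (x : ℝ) : (P a).eval x = ∏ j, (x - a j) := by
  unfold P
  simp [eval_prod]

/-- The roots of a perturbed Hermite polynomial. -/
theorem t_yasym (h_cont : S_cont) (h_heatalg : S_heatalg) : S_yasym := by
  intro d m h q y hm hmd hh hP hq0 hq hev i
  have hid : Tendsto (fun th : ℝ => th) (𝓝[>] 0) (𝓝 0) := nhdsWithin_le_nhds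
  -- convergence of the root vectors
  have hy : Tendsto y (𝓝[>] 0) (𝓝 h) := by
    refine h_cont ℝ (𝓝[>] 0) d y h (hev.mono fun th h => h.1) hh.monotone ?_
    intro j
    have h1 : Tendsto (fun th : ℝ => ∑ k ∈ range (d + 1),
        (q k * th ^ k) * (heat d 1 (X ^ (d - k))).coeff j) (𝓝[>] 0)
        (𝓝 (∑ k ∈ range (d + 1), (q k * (0 : ℝ) ^ k) * (heat d 1 (X ^ (d - k))).coeff j)) := by
      refine tendsto_finsetSum _ fun k _ => ?_
      exact ((hid.pow k).const_mul (q k)).mul_const _
    have h2 : ∑ k ∈ range (d + 1), (q k * (0 : ℝ) ^ k) * (heat d 1 (X ^ (d - k))).coeff j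
        = (P h).coeff j := by
      rw [sum_eq_single 0]
      · rw [hP, hq0]; simp
      · intro k _ hk
        rw [zero_pow hk]; simp
      · intro h0
        exact absurd (mem_range.mpr (Nat.succ_pos d)) h0
    rw [h2] at h1
    refine h1.congr' ?_
    filter_upwards [hev] with th hth
    rw [hth.2, finsetSum_coeff]
    refine sum_congr rfl fun k _ => ?_
    rw [coeff_C_mul]
  have hyi : Tendsto (fun th => y th i) (𝓝[>] 0) (𝓝 (h i)) := (tendsto_pi_nhds.mp hy) i
  -- the product of the other factors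
  have hprod : Tendsto (fun th => ∏ j ∈ univ.erase i, (y th i - h j)) (𝓝[>] 0)
      (𝓝 (∏ j ∈ univ.erase i, (h i - h j))) :=
    tendsto_finsetProd _ fun j _ => hyi.sub_const _
  have hne : ∏ j ∈ univ.erase i, (h i - h j) ≠ 0 := by
    rw [prod_ne_zero_iff]
    intro j hj
    exact sub_ne_zero.mpr fun hhh => (mem_erase.mp hj).1 (hh.injective hhh).symm
  -- the remainder
  have hS : Tendsto (fun th : ℝ => ∑ k ∈ range (d + 1),
      (if k < m then 0 else q k * th ^ (k - m)) * (heat d 1 (X ^ (d - k))).eval (y th i)) (𝓝[>] 0)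
      (𝓝 (∑ k ∈ range (d + 1), (if k < m then 0 else q k * (0 : ℝ) ^ (k - m)) *
        (heat d 1 (X ^ (d - k))).eval (h i))) := by
    refine tendsto_finsetSum _ fun k _ => ?_
    refine Tendsto.mul ?_ ?_
    · split_ifs
      · exact tendsto_const_nhds
      · exact (hid.pow (k - m)).const_mul (q k)
    · exact ((heat d 1 (X ^ (d - k))).continuous.tendsto (h i)).comp hyi
  have hS0 : ∑ k ∈ range (d + 1), (if k < m then 0 else q k * (0 : ℝ) ^ (k - m)) *
        (heat d 1 (X ^ (d - k))).eval (h i) = q m * (heat d 1 (X ^ (d - m))).eval (h i) := by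
    rw [sum_eq_single m]
    · simp
    · intro k _ hk
      by_cases hkm : k < m
      · rw [if_pos hkm, zero_mul]
      · rw [if_neg hkm, zero_pow (by omega)]; simp
    · intro h0
      exact absurd (mem_range.mpr (by omega)) h0
  rw [hS0] at hS
  have hlim := (hS.neg).div hprod hne
  have hval : -(q m * (heat d 1 (X ^ (d - m))).eval (h i)) / ∏ j ∈ univ.erase i, (h i - h j)
      = q m * dl d h m i := by
    unfold dl
    ring
  rw [hval] at hlim
  refine hlim.congr' ?_
  have hpos : ∀ᶠ th : ℝ in 𝓝[>] 0, 0 < th := self_mem_nhdsWithin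
  have hne' : ∀ᶠ th : ℝ in 𝓝[>] 0, ∏ j ∈ univ.erase i, (y th i - h j) ≠ 0 :=
    hprod.eventually_ne hne
  filter_upwards [hev, hpos, hne'] with th hth hth0 hth1
  have e1 : (P (y th)).eval (y th i) = 0 := by
    rw [P_eval]
    exact prod_eq_zero (mem_univ i) (sub_self _)
  rw [hth.2, eval_finsetSum] at e1
  have e2 : ∀ k ∈ range (d + 1), (C (q k * th ^ k) * heat d 1 (X ^ (d - k))).eval (y th i)
      = (if k = 0 then (P h).eval (y th i) else 0)
        + th ^ m * ((if k < m then 0 else q k * th ^ (k - m)) *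
          (heat d 1 (X ^ (d - k))).eval (y th i)) := by
    intro k _
    rw [eval_mul, eval_C]
    by_cases hk0 : k = 0
    · subst hk0
      rw [if_pos rfl, if_pos (by omega), hP, hq0]
      simp
    · rw [if_neg hk0]
      by_cases hkm : k < m
      · rw [if_pos hkm, hq k (by omega) hkm]
        simp
      · rw [if_neg hkm]
        have : th ^ k = th ^ m * th ^ (k - m) := by
          rw [← pow_add]
          congr 1
          omega
        rw [this]
        ring
  rw [sum_congr rfl e2, sum_add_distrib, ← mul_sum, sum_ite_eq' (range (d + 1)) 0,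
    if_pos (mem_range.mpr (Nat.succ_pos d)), P_eval, ← mul_prod_erase univ _ (mem_univ i)] at e1
  show -(∑ k ∈ range (d + 1), (if k < m then 0 else q k * th ^ (k - m)) *
      (heat d 1 (X ^ (d - k))).eval (y th i)) / ∏ j ∈ univ.erase i, (y th i - h j) = _
  rw [div_eq_div_iff hth1 (by positivity)]
  linarith

end Pool.Agent.Q298.FF
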