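import Pool.Agent.Q83.FF.Stm

set_option autoImplicit false

open Polynomial Finset Filter Topology
open Pool.Agent.Q83.FF

namespace Pool.Agent.Q298.FF

theorem heat_sum {ι : Type} (d : ℕ) (s : ℝ) (T : Finset ι) (f : ι → ℝ[X]) :
    heat d s (∑ k ∈ T, f k) = ∑ k ∈ T, heat d s (f k) := by
  unfold heat
  rw [sum_comm]
  refine sum_congr rfl fun k _ => ?_
  rw [← mul_sum, iterate_derivative_sum]

theorem heat_C_mul (d : ℕ) (s c : ℝ) (p : ℝ[X]) : heat d s (C c * p) = C c * heat d s p := by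
  unfold heat
  rw [mul_sum]
  refine sum_congr rfl fun k _ => ?_
  rw [iterate_derivative_C_mul]
  ring

/-- Coefficients of the heat flow of a monomial, rescaled. -/
theorem heat_coeff_scale (d i k : ℕ) (th : ℝ) (hth : 0 < th) (hi : i ≤ d) (hk : k ≤ d) :
    th ^ i * (heat d (1 / th ^ 2) (X ^ (d - k))).coeff (d - i)
      = th ^ k * (heat d 1 (X ^ (d - k))).coeff (d - i) := by
  unfold heat
  rw [finsetSum_coeff, finsetSum_coeff, mul_sum, mul_sum]
  refine sum_congr rfl fun l _ => ?_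
  rw [coeff_C_mul, coeff_C_mul, coeff_iterate_derivative, coeff_X_pow]
  by_cases h : d - i + 2 * l = d - k
  · have hi2 : i = k + 2 * l := by omega
    rw [if_pos h]
    have e1 : (-(1 / th ^ 2 / (2 * ((d : ℝ) - 1)))) ^ l
        = (-(1 / (2 * ((d : ℝ) - 1)))) ^ l * ((th ^ 2)⁻¹) ^ l := by
      rw [← mul_pow]
      congr 1
      rw [div_div, one_div, mul_inv, one_div]
      ring
    have e2 : th ^ i * ((th ^ 2)⁻¹) ^ l = th ^ k := by
      rw [hi2, pow_add, pow_mul, mul_assoc, ← mul_pow, mul_inv_cancel₀ (by positivity), one_pow,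
        mul_one]
    rw [e1]
    calc th ^ i * ((-(1 / (2 * ((d : ℝ) - 1)))) ^ l * ((th ^ 2)⁻¹) ^ l / (Nat.factorial l : ℝ)
          * ((d - i + 2 * l).descFactorial (2 * l) • (1 : ℝ)))
        = (th ^ i * ((th ^ 2)⁻¹) ^ l) * ((-(1 / (2 * ((d : ℝ) - 1)))) ^ l
          / (Nat.factorial l : ℝ) * ((d - i + 2 * l).descFactorial (2 * l) • (1 : ℝ))) := by ring
      _ = _ := by rw [e2]
  · rw [if_neg h]
    simp

theorem P_natDegree {d : ℕ} (a : Fin d → ℝ) : (P a).natDegree = d := by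
  unfold P
  rw [natDegree_finsetProd_X_sub_C_eq_card]
  simp

/-- Rescaled flow. -/
theorem t_ypoly (h_flow : S_flow) (h_heatalg : S_heatalg) (h_smul : S_smul) : S_ypoly := by
  intro d a v th hd ham hai hth hs
  obtain ⟨hadd, -, -, -, -, hdeg, -⟩ := h_heatalg
  have hfl := ((h_flow d a hd ham hai).2.1 _ hs).2.2
  set p0 : ℝ[X] := heat d (-v) (P a) with hp0
  have hp0d : p0.natDegree ≤ d := (hdeg d (-v) (P a)).trans (P_natDegree a).le
  have h1 : P (fl a (1 / th ^ 2 - v)) = heat d (1 / th ^ 2) p0 := by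
    rw [hfl, hp0, hadd d (1 / th ^ 2) (-v) (P a) (P_natDegree a).le, ← sub_eq_add_neg]
  have h2 : p0 = ∑ k ∈ range (d + 1), C (p0.coeff (d - k)) * X ^ (d - k) := by
    conv_lhs => rw [as_sum_range_C_mul_X_pow' p0 (Nat.lt_succ_of_le hp0d)]
    rw [← sum_range_reflect]
    simp
  have h3 : heat d (1 / th ^ 2) p0
      = ∑ k ∈ range (d + 1), C (p0.coeff (d - k)) * heat d (1 / th ^ 2) (X ^ (d - k)) := by
    conv_lhs => rw [h2]
    rw [heat_sum]
    exact sum_congr rfl fun k _ => heat_C_mul _ _ _ _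
  ext n
  by_cases hn : n ≤ d
  · obtain ⟨i, hi, rfl⟩ : ∃ i, i ≤ d ∧ n = d - i := ⟨d - n, by omega, by omega⟩
    rw [h_smul.1 d _ th i hi, h1, h3, finsetSum_coeff, finsetSum_coeff, mul_sum]
    refine sum_congr rfl fun k hk => ?_
    have hk' : k ≤ d := by
      rw [mem_range] at hk; omega
    rw [coeff_C_mul, coeff_C_mul]
    have := heat_coeff_scale d i k th hth hi hk'
    calc th ^ i * (p0.coeff (d - k) * (heat d (1 / th ^ 2) (X ^ (d - k))).coeff (d - i))
        = p0.coeff (d - k) * (th ^ i * (heat d (1 / th ^ 2) (X ^ (d - k))).coeff (d - i)) := by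
          ring
      _ = _ := by rw [this]; ring
  · push Not at hn
    rw [coeff_eq_zero_of_natDegree_lt (by rw [P_natDegree]; exact hn)]
    rw [finsetSum_coeff]
    symm
    apply sum_eq_zero
    intro k _
    rw [coeff_C_mul]
    have h4 : (heat d 1 (X ^ (d - k))).natDegree ≤ d := by
      have := hdeg d 1 (X ^ (d - k))
      rw [natDegree_X_pow] at this
      omega
    rw [coeff_eq_zero_of_natDegree_lt (lt_of_le_of_lt h4 hn), mul_zero]

end Pool.Agent.Q298.FF
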